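import Mathlib

set_option autoImplicit false

/-!
# MP_2d70c5_nt: an equal value of the sequences `H_42` and `H_45`

`H_d(n)` is the number of permutations of an `n`-element set all of whose cycles have length `1` or
`d`.  For `d ≤ n < 2 d` one has `H_d(n) = 1 + (d - 1)! * choose n d`, and

`H_42(49) = 1 + 41! * choose 49 42 = 1 + 44! * choose 47 45 = H_45(47)`.
-/

namespace Pool.Agent.Results.MP_2d70c5_nt.EqualValue

open Equiv Equiv.Perm Nat

/-- `H d n`: the number of permutations of an `n`-element set in which every cycle has length `1`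
or `d` (`cycleType` is the multiset of the lengths of the nontrivial cycles). -/
noncomputable def H (d n : ℕ) : ℕ :=
  Nat.card {σ : Equiv.Perm (Fin n) // ∀ c ∈ σ.cycleType, c = d}

theorem H_eq (d n : ℕ) (hd : 2 ≤ d) (hn : d ≤ n) (hn2 : n < 2 * d) :
    H d n = 1 + (d - 1)! * Nat.choose n d := by
  classical
  have h1 : Nat.card {σ : Equiv.Perm (Fin n) // ∀ c ∈ σ.cycleType, c = d} =
      (Finset.univ.filter (fun σ : Equiv.Perm (Fin n) => ∀ c ∈ σ.cycleType, c = d)).card := by
    rw [Nat.card_eq_fintype_card, Fintype.card_subtype]
  have h2 : Finset.univ.filter (fun σ : Equiv.Perm (Fin n) => ∀ c ∈ σ.cycleType, c = d) =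
      {1} ∪ Finset.univ.filter (fun σ : Equiv.Perm (Fin n) => σ.cycleType = {d}) := by
    ext σ
    simp only [Finset.mem_filter, Finset.mem_univ, true_and, Finset.mem_union,
      Finset.mem_singleton]
    constructor
    · intro h
      have hrep := Multiset.eq_replicate_card.2 h
      have hsum : σ.cycleType.sum ≤ n := by
        have := σ.sum_cycleType
        rw [this]
        exact (Finset.card_le_univ _).trans (by simp)
      rw [hrep, Multiset.sum_replicate, smul_eq_mul] at hsum
      rcases Nat.lt_or_ge (Multiset.card σ.cycleType) 2 with hk | hk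
      · interval_cases hc : Multiset.card σ.cycleType
        · left
          rw [Multiset.card_eq_zero] at hc
          exact cycleType_eq_zero.1 hc
        · right
          rw [hrep]
          rfl
      · exfalso
        have : 2 * d ≤ Multiset.card σ.cycleType * d := Nat.mul_le_mul_right _ hk
        omega
    · rintro (rfl | h)
      · simp
      · intro c hc
        rw [h] at hc
        simpa using hc
  have h3 : Disjoint ({1} : Finset (Equiv.Perm (Fin n)))
      (Finset.univ.filter (fun σ : Equiv.Perm (Fin n) => σ.cycleType = {d})) := by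
    rw [Finset.disjoint_singleton_left]
    simp only [Finset.mem_filter, Finset.mem_univ, true_and, cycleType_one]
    intro h
    have := congrArg Multiset.card h
    simp at this
  unfold H
  rw [h1, h2, Finset.card_union_of_disjoint h3, Finset.card_singleton,
    card_of_cycleType_singleton hd (by simpa using hn)]
  simp

theorem H_42_49 : H 42 49 = H 45 47 := by
  rw [H_eq 42 49 (by norm_num) (by norm_num) (by norm_num),
    H_eq 45 47 (by norm_num) (by norm_num) (by norm_num)]
  decide +kernel

/-- **Q1 has an affirmative answer**: there are `2 ≤ a < b`, `n ≥ a`, `m ≥ b` with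
`H_a(n) = H_b(m)`, namely `H_42(49) = H_45(47)`. -/
theorem result : ∃ a b n m : ℕ, 2 ≤ a ∧ a < b ∧ a ≤ n ∧ b ≤ m ∧ H a n = H b m :=
  ⟨42, 45, 49, 47, by norm_num, by norm_num, by norm_num, by norm_num, H_42_49⟩

end Pool.Agent.Results.MP_2d70c5_nt.EqualValue
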